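import Mathlib

set_option autoImplicit false

namespace Pool.Agent.Results.MP_edc67c_co.Swap

inductive IsT : List (ℕ × ℕ) → Prop
  | nil : IsT []
  | cons (c : ℕ × ℕ) (l : List (ℕ × ℕ)) : IsT l → c ∉ l → (0 < c.2 → (c.1, c.2 - 1) ∈ l) →
      (0 < c.1 → (c.1 - 1, c.2) ∈ l) → IsT (c :: l)

def Node : Type := {l : List (ℕ × ℕ) // IsT l}

def SYT : SimpleGraph Node where
  Adj a b := (∃ c, b.1 = c :: a.1) ∨ (∃ c, a.1 = c :: b.1)
  symm := ⟨fun _ _ h => h.symm⟩
  loopless := ⟨fun a h => by simp at h⟩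

def Symm (T : List (ℕ × ℕ)) : Prop := ∀ c ∈ T, c.swap ∈ T

def tau (T U : List (ℕ × ℕ)) : List (ℕ × ℕ) :=
  if T <:+ U then (U.take (U.length - T.length)).map Prod.swap ++ T else U

def T0 : List (ℕ × ℕ) := [(2, 0), (1, 1), (0, 2), (1, 0), (0, 1), (0, 0)]

def Q (U : List (ℕ × ℕ)) : Prop := (0, 3) :: T0 <:+ U ∨ (3, 0) :: T0 <:+ U

instance (U : List (ℕ × ℕ)) : Decidable (Q U) := by unfold Q; infer_instance

def f : List (ℕ × ℕ) → List (ℕ × ℕ)
  | [] => []
  | c :: U => (if Q (c :: U) then c.swap else c) :: f U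

theorem Qc (c : ℕ × ℕ) (U : List (ℕ × ℕ)) :
    Q (c :: U) ↔ (U = T0 ∧ (c = (0, 3) ∨ c = (3, 0))) ∨ Q U := by
  simp only [Q, List.suffix_cons_iff, List.cons.injEq, @eq_comm _ U, @eq_comm _ c]
  tauto

theorem fix : ∀ U, ¬ Q U → f U = U
  | [], _ => rfl
  | c :: U, h => by rw [f, if_neg h, fix U fun q => h ((Qc c U).2 (.inr q))]

theorem Qf : ∀ U, Q (f U) ↔ Q U
  | [] => Iff.rfl
  | c :: U => by
    by_cases h : Q U
    · exact iff_of_true ((Qc _ _).2 (.inr ((Qf U).2 h))) ((Qc _ _).2 (.inr h))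
    by_cases h' : Q (c :: U)
    · rw [f, if_pos h', fix U h, Qc]
      refine iff_of_true ?_ h'
      rcases (Qc c U).1 h' with ⟨e, rfl | rfl⟩ | e
      exacts [.inl ⟨e, .inr rfl⟩, .inl ⟨e, .inl rfl⟩, .inr e]
    · rw [fix _ h']

theorem ff : ∀ U, f (f U) = U
  | [] => rfl
  | c :: U => by
    have := Qf (c :: U)
    rw [f] at this
    rw [f, f, ff U, if_congr this rfl rfl]
    split_ifs <;> simp

theorem mem : ∀ U c, Q (c :: U) → ∀ x, x ∈ f U ↔ x.swap ∈ U
  | [], c, h, _ => by simp [f]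
  | d :: U, c, h, x => by
    rcases (Qc c _).1 h with ⟨e, -⟩ | e
    · rw [e, fix _ (by decide)]
      rcases x with ⟨a, b⟩
      simp only [T0, List.mem_cons, Prod.mk.injEq, List.not_mem_nil, Prod.swap_prod_mk]
      tauto
    · rw [f, if_pos e, List.mem_cons, List.mem_cons, mem U d e, Prod.swap_eq_iff_eq_swap]

theorem isT (U : List (ℕ × ℕ)) (h : IsT U) : IsT (f U) := by
  induction h with
  | nil => exact .nil
  | cons c l h1 h2 h3 h4 ih =>
    by_cases h : Q (c :: l)
    · rw [f, if_pos h]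
      exact .cons _ _ ih (by simpa [mem l c h] using h2) (by simpa [mem l c h] using h4)
        (by simpa [mem l c h] using h3)
    · rw [fix _ h]
      exact .cons _ _ h1 h2 h3 h4

def g (U : Node) : Node := ⟨f U.1, isT _ U.2⟩

theorem adj (a b : Node) (h : SYT.Adj a b) : SYT.Adj (g a) (g b) := by
  rcases h with ⟨c, h⟩ | ⟨c, h⟩
  · exact .inl ⟨_, by simp only [g, h, f]; rfl⟩
  · exact .inr ⟨_, by simp only [g, h, f]; rfl⟩

theorem gg (a : Node) : g (g a) = a := Subtype.ext (ff _)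

theorem step (L : List Node) (T : List (ℕ × ℕ)) : ∃ T' : List (ℕ × ℕ), T'.length = T.length ∧
    ((∀ x, L.foldr (fun W U => tau W.1 U) (x :: T) = x :: T') ∨
      ∀ x, L.foldr (fun W U => tau W.1 U) (x :: T) = x.swap :: T') := by
  induction L with
  | nil => exact ⟨T, rfl, .inl fun _ => rfl⟩
  | cons W L ih =>
    obtain ⟨T', e, h⟩ := ih
    by_cases s : W.1 <:+ T'
    · have k : ∀ x, tau W.1 (x :: T') = x.swap :: tau W.1 T' := fun x => by
        have := s.length_le
        rw [tau, tau, if_pos s, if_pos (s.trans (List.suffix_cons _ _)), List.length_cons,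
          Nat.succ_sub this]
        rfl
      refine ⟨tau W.1 T', ?_, ?_⟩
      · have := s.length_le
        simp only [tau, if_pos s, List.length_append, List.length_map, List.length_take]
        omega
      · rcases h with h | h
        · exact .inr fun x => by rw [List.foldr_cons, h, k]
        · exact .inl fun x => by rw [List.foldr_cons, h, k, Prod.swap_swap]
    · have k : ∀ x, tau W.1 (x :: T') = x :: T' := fun x => by
        rw [tau]
        split_ifs with q
        · rcases List.suffix_cons_iff.1 q with q | q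
          · simp [q]
          · exact (s q).elim
        · rfl
      exact ⟨T', e, h.imp (fun h x => by rw [List.foldr_cons, h, k])
        (fun h x => by rw [List.foldr_cons, h, k])⟩

theorem result : ∃ (φ : SYT ≃g SYT) (N : ℕ), ¬ ∃ L : List Node, (∀ T ∈ L, Symm T.1) ∧
    ∀ U : Node, U.1.length ≤ N → (φ U).1 = L.foldr (fun T V => tau T.1 V) U.1 := by
  refine ⟨⟨⟨g, g, gg, gg⟩, fun {a b} => ⟨fun h => ?_, adj a b⟩⟩, 7, ?_⟩
  · have := adj _ _ h
    simp only [Equiv.coe_fn_mk, gg] at this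
    exact this
  rintro ⟨L, -, h⟩
  have t0 : IsT T0 := by
    repeat refine .cons _ _ ?_ (by decide) (by decide) (by decide)
    exact .nil
  have h1 := h ⟨(0, 3) :: T0, .cons _ _ t0 (by decide) (by decide) (by decide)⟩ le_rfl
  have h2 := h ⟨(1, 2) :: T0, .cons _ _ t0 (by decide) (by decide) (by decide)⟩ le_rfl
  obtain ⟨T', -, k | k⟩ := step L T0
  · rw [k] at h1
    exact absurd (List.head_eq_of_cons_eq h1) (by decide)
  · rw [k] at h2
    exact absurd (List.head_eq_of_cons_eq h2) (by decide)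

end Pool.Agent.Results.MP_edc67c_co.Swap
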